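import Pool.Agent.Helper22.TL.Spec

set_option autoImplicit false

/-! # TL, parts KFREE, KGEN, KFIN, KUP: the automorphism group acts simply transitively on flags -/

namespace TL

open Set

variable {d : ℕ} {𝒯 : Set (Set (E d))}

lemma Flg.ext' {Φ Ψ : Flg 𝒯} (h : ∀ i, Φ.F i = Ψ.F i) : Φ = Ψ := by
  cases Φ
  cases Ψ
  have h1 := funext h
  simp only at h1
  subst h1
  rfl

lemma Flg.el_eq_iff {Φ Ψ : Flg 𝒯} {i j : Fin (d + 1)} : Φ.el i = Ψ.el j ↔ Φ.F i = Ψ.F j :=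
  Subtype.ext_iff

lemma FAdj.symm {i : Fin (d + 1)} {Φ Ψ : Flg 𝒯} (h : FAdj i Φ Ψ) : FAdj i Ψ Φ :=
  ⟨h.1.symm, fun j hj => (h.2 j hj).symm⟩

lemma FAdj.ne' {i : Fin (d + 1)} {Φ Ψ : Flg 𝒯} (h : FAdj i Φ Ψ) : Φ.F i ≠ Ψ.F i := by
  intro h1
  apply h.1
  refine Flg.ext' fun j => ?_
  by_cases hj : j = i
  · rw [hj, h1]
  · exact h.2 j hj

namespace Nice

variable (N : Nice 𝒯)
include N

/-- the action on the flags -/
noncomputable def fl (g : Au 𝒯) (Φ : Flg 𝒯) : Flg 𝒯 := Classical.choose (N.act g Φ)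

lemma fl_el (g : Au 𝒯) (Φ : Flg 𝒯) (i : Fin (d + 1)) : g (Φ.el i) = (N.fl g Φ).el i :=
  Classical.choose_spec (N.act g Φ) i

lemma fl_eq {g : Au 𝒯} {Φ Ψ : Flg 𝒯} (h : ∀ i, g (Φ.el i) = Ψ.el i) : N.fl g Φ = Ψ := by
  refine Flg.ext' fun i => ?_
  rw [← Flg.el_eq_iff, ← N.fl_el, h]

lemma fl_one (Φ : Flg 𝒯) : N.fl 1 Φ = Φ := N.fl_eq fun _ => rfl

lemma fl_mul (g h : Au 𝒯) (Φ : Flg 𝒯) : N.fl (g * h) Φ = N.fl g (N.fl h Φ) := by
  refine N.fl_eq fun i => ?_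
  rw [← N.fl_el, ← N.fl_el]
  rfl

lemma fl_adj {i : Fin (d + 1)} {Φ Ψ : Flg 𝒯} (g : Au 𝒯) (h : FAdj i Φ Ψ) :
    FAdj i (N.fl g Φ) (N.fl g Ψ) := by
  refine ⟨?_, ?_⟩
  · intro h1
    apply h.ne'
    rw [← Flg.el_eq_iff]
    apply g.injective
    rw [N.fl_el, N.fl_el, h1]
  · intro j hj
    rw [← Flg.el_eq_iff, ← N.fl_el, ← N.fl_el, Flg.el_eq_iff.2 (h.2 j hj)]

/-- the neighbour -/
noncomputable def nb (i : Fin (d + 1)) (Φ : Flg 𝒯) : Flg 𝒯 := Classical.choose (N.wall Φ i)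

lemma nb_adj (i : Fin (d + 1)) (Φ : Flg 𝒯) : FAdj i Φ (N.nb i Φ) :=
  (Classical.choose_spec (N.wall Φ i)).1

lemma nb_eq {i : Fin (d + 1)} {Φ Ψ : Flg 𝒯} (h : FAdj i Φ Ψ) : Ψ = N.nb i Φ :=
  (Classical.choose_spec (N.wall Φ i)).2 Ψ h

lemma nb_nb (i : Fin (d + 1)) (Φ : Flg 𝒯) : N.nb i (N.nb i Φ) = Φ :=
  (N.nb_eq (N.nb_adj i Φ).symm).symm

lemma fl_nb (g : Au 𝒯) (i : Fin (d + 1)) (Φ : Flg 𝒯) : N.fl g (N.nb i Φ) = N.nb i (N.fl g Φ) :=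
  N.nb_eq (N.fl_adj g (N.nb_adj i Φ))

/-- Only the identity fixes a flag. -/
lemma eq_one {Φ : Flg 𝒯} {e : Au 𝒯} (h : N.fl e Φ = Φ) : e = 1 := by
  have h1 : ∀ Ψ : Flg 𝒯, N.fl e Ψ = Ψ := by
    intro Ψ
    induction N.gcon Φ Ψ with
    | refl => exact h
    | tail _ hb ih =>
      obtain ⟨i, hi⟩ := hb
      rw [N.nb_eq hi, N.fl_nb, ih]
  refine RelIso.ext fun x => ?_
  change e x = x
  rcases x.2 with h2 | h2
  · -- the greatest element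
    have h3 : ∀ y : FP 𝒯, y ≤ x := by
      intro y
      change y.1 ⊆ x.1
      rw [h2]
      exact subset_univ _
    refine le_antisymm (h3 _) ?_
    rw [← e.symm_apply_le]
    exact h3 _
  · rcases Set.eq_empty_or_nonempty x.1 with h4 | h4
    · have h3 : ∀ y : FP 𝒯, x ≤ y := by
        intro y
        change x.1 ⊆ y.1
        rw [h4]
        exact empty_subset _
      refine le_antisymm ?_ (h3 _)
      rw [← e.le_symm_apply]
      exact h3 _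
    · obtain ⟨Ψ, hΨ⟩ := N.full {x.1} (by
        intro F hF
        rw [mem_singleton_iff.1 hF]
        exact ⟨h4, h2⟩) (Set.subsingleton_singleton.isChain)
      obtain ⟨i, hi⟩ := hΨ x.1 rfl
      have h5 : x = Ψ.el i := Subtype.ext hi.symm
      rw [h5, N.fl_el, h1]

lemma fl_inj {Φ : Flg 𝒯} {g h : Au 𝒯} (hgh : N.fl g Φ = N.fl h Φ) : g = h := by
  have h1 : N.fl (h⁻¹ * g) Φ = Φ := by
    rw [N.fl_mul, hgh, ← N.fl_mul, inv_mul_cancel, N.fl_one]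
  have h2 := N.eq_one h1
  exact (inv_mul_eq_one.1 h2).symm

lemma exists_fl (Φ Ψ : Flg 𝒯) : ∃ g : Au 𝒯, N.fl g Φ = Ψ := by
  obtain ⟨e, he⟩ := N.trans Φ Ψ
  exact ⟨e, N.fl_eq he⟩

variable {Φ : Flg 𝒯} {ρ : Fin (d + 1) → Au 𝒯} (hρ : TG 𝒯 Φ ρ)
include hρ

lemma fl_rho (i : Fin (d + 1)) : N.fl (ρ i) Φ = N.nb i Φ := by
  apply N.nb_eq
  refine ⟨?_, ?_⟩
  · intro h1
    apply hρ.ne i
    rw [N.fl_el, ← h1]
  · intro j hj
    rw [← Flg.el_eq_iff, ← N.fl_el, hρ.fix i j hj]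

lemma fl_mul_rho (g : Au 𝒯) (i : Fin (d + 1)) : N.fl (g * ρ i) Φ = N.nb i (N.fl g Φ) := by
  rw [N.fl_mul, N.fl_rho hρ, N.fl_nb]

lemma rho_sq (i : Fin (d + 1)) : ρ i * ρ i = 1 := by
  apply N.eq_one (Φ := Φ)
  rw [N.fl_mul_rho hρ, N.fl_rho hρ, N.nb_nb]

lemma exists_mem (J : Set (Fin (d + 1))) (Ψ : Flg 𝒯)
    (h : Relation.ReflTransGen (fun A B => ∃ j, j ∈ J ∧ FAdj j A B) Φ Ψ) :
    ∃ g ∈ Subgroup.closure (ρ '' J), N.fl g Φ = Ψ := by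
  induction h with
  | refl => exact ⟨1, Subgroup.one_mem _, N.fl_one Φ⟩
  | tail _ hb ih =>
    obtain ⟨g, hg, rfl⟩ := ih
    obtain ⟨j, hj, hadj⟩ := hb
    refine ⟨g * ρ j, Subgroup.mul_mem _ hg (Subgroup.subset_closure ⟨j, hj, rfl⟩), ?_⟩
    rw [N.fl_mul_rho hρ]
    exact (N.nb_eq hadj).symm

lemma closure_eq : Subgroup.closure (range ρ) = ⊤ := by
  rw [eq_top_iff]
  intro g _
  have h1 : Relation.ReflTransGen (fun A B => ∃ j, j ∈ (univ : Set (Fin (d + 1))) ∧ FAdj j A B) Φ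
      (N.fl g Φ) := by
    refine Relation.ReflTransGen.mono ?_ _ _ (N.gcon Φ (N.fl g Φ))
    rintro a b ⟨i, hi⟩
    exact ⟨i, mem_univ i, hi⟩
  obtain ⟨h, hh, hhg⟩ := N.exists_mem hρ univ _ h1
  rw [image_univ] at hh
  rw [← N.fl_inj hhg]
  exact hh

lemma stab {i : Fin (d + 1)} {g : Au 𝒯} (hg : g (Φ.el i) = Φ.el i) :
    g ∈ Subgroup.closure (ρ '' {j | j ≠ i}) := by
  have h1 : Φ.F i = (N.fl g Φ).F i := by
    rw [← Flg.el_eq_iff, ← N.fl_el, hg]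
  obtain ⟨h, hh, hhg⟩ := N.exists_mem hρ {j | j ≠ i} _ (N.lcon i Φ (N.fl g Φ) h1)
  rw [← N.fl_inj hhg]
  exact hh

omit N in
lemma fix_of_mem {i : Fin (d + 1)} {g : Au 𝒯} (hg : g ∈ Subgroup.closure (ρ '' {j | j ≠ i})) :
    g (Φ.el i) = Φ.el i := by
  induction hg using Subgroup.closure_induction with
  | mem x hx =>
    obtain ⟨j, hj, rfl⟩ := hx
    exact hρ.fix j i (Ne.symm hj)
  | one => rfl
  | mul x y _ _ hx hy =>
    change x (y (Φ.el i)) = Φ.el i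
    rw [hy, hx]
  | inv x _ hx =>
    change x.symm (Φ.el i) = Φ.el i
    rw [OrderIso.symm_apply_eq, hx]

end Nice

theorem KFREE_thm : S_KFREE := by
  intro d 𝒯 _ N Φ e he
  exact N.eq_one (N.fl_eq he)

theorem KGEN_thm : S_KGEN := by
  intro d 𝒯 _ N
  have h1 := N.inf
  refine ⟨inferInstance, fun Φ => ⟨?_, ?_⟩⟩
  · choose g hg using fun i => N.exists_fl Φ (N.nb i Φ)
    refine ⟨g, ?_, ?_⟩
    · intro i j hj
      rw [N.fl_el, hg, Flg.el_eq_iff]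
      exact ((N.nb_adj i Φ).2 j hj).symm
    · intro i h2
      rw [N.fl_el, hg, Flg.el_eq_iff] at h2
      exact (N.nb_adj i Φ).ne' h2.symm
  · intro ρ hρ
    exact ⟨N.closure_eq hρ, N.rho_sq hρ, fun i g hg => N.stab hρ hg⟩

theorem KFIN_thm : S_KFIN := by
  intro d 𝒯 _ N Φ ρ hρ
  constructor
  · intro i
    have hfin := (N.fin i Φ).to_subtype
    refine Finite.of_injective (β := {Ψ : Flg 𝒯 | Ψ.F i = Φ.F i}) (fun g => ⟨N.fl g Φ, ?_⟩) ?_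
    · change (N.fl g Φ).F i = Φ.F i
      rw [← Flg.el_eq_iff, ← N.fl_el, Nice.fix_of_mem hρ g.2]
    · intro g h hgh
      exact Subtype.ext (N.fl_inj (congrArg Subtype.val hgh))
  · have h1 := N.inf
    exact Infinite.of_surjective (fun g => N.fl g Φ) (fun Ψ => N.exists_fl Φ Ψ)

theorem KUP_thm : S_KUP := by
  intro d 𝒯 _ N Φ ρ hρ W _ s hs hrel
  have hsc : SCHyp FAdj W s N.nb := by
    refine ⟨hs, N.nb_adj, fun i Φ Ψ h => N.nb_eq h, ?_⟩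
    intro Ψ i j hij m hm
    apply hrel i j hij m
    obtain ⟨g, rfl⟩ := N.exists_fl Φ Ψ
    have h1 : ∀ m : ℕ, (fun Ψ => N.nb j (N.nb i Ψ))^[m] (N.fl g Φ) =
        N.fl (g * (ρ i * ρ j) ^ m) Φ := by
      intro m
      induction m with
      | zero => simp
      | succ m ih =>
        rw [Function.iterate_succ_apply', ih, pow_succ, ← mul_assoc, ← mul_assoc,
          N.fl_mul_rho hρ, N.fl_mul_rho hρ]
    rw [h1] at hm
    have h2 := N.fl_inj hm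
    exact mul_eq_left.1 h2
  obtain ⟨f₀, hf₀⟩ := N.sc W s N.nb hsc
  let f : Au 𝒯 → W := fun g => (f₀ Φ)⁻¹ * f₀ (N.fl g Φ)
  have hf : ∀ g, f₀ (N.fl g Φ) = f₀ Φ * f g := fun g => by simp [f]
  have key : ∀ h : Au 𝒯, ∀ g : Au 𝒯, f₀ (N.fl (g * h) Φ) = f₀ (N.fl g Φ) * f h := by
    intro h
    have hh : h ∈ Subgroup.closure (range ρ) := by
      rw [N.closure_eq hρ]
      exact Subgroup.mem_top h
    induction hh using Subgroup.closure_induction with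
    | mem x hx =>
      obtain ⟨j, rfl⟩ := hx
      intro g
      have h1 : f (ρ j) = s j := by
        change (f₀ Φ)⁻¹ * f₀ (N.fl (ρ j) Φ) = s j
        rw [N.fl_rho hρ, hf₀, inv_mul_cancel_left]
      rw [N.fl_mul_rho hρ, hf₀, h1]
    | one =>
      intro g
      have h1 : f 1 = 1 := by
        change (f₀ Φ)⁻¹ * f₀ (N.fl 1 Φ) = 1
        rw [N.fl_one, inv_mul_cancel]
      rw [mul_one, h1, mul_one]
    | mul x y _ _ hx hy =>
      intro g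
      have h1 : f (x * y) = f x * f y := by
        change (f₀ Φ)⁻¹ * f₀ (N.fl (x * y) Φ) = f x * f y
        rw [hy, ← mul_assoc]
      rw [← mul_assoc, hy, hx, h1, mul_assoc]
    | inv x _ hx =>
      have h0 : ∀ g, f₀ (N.fl (g * x⁻¹) Φ) = f₀ (N.fl g Φ) * (f x)⁻¹ := by
        intro g
        have h1 := hx (g * x⁻¹)
        rw [inv_mul_cancel_right] at h1
        rw [h1, mul_inv_cancel_right]
      have h1 : f x⁻¹ = (f x)⁻¹ := by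
        have h2 := h0 1
        rw [one_mul, N.fl_one] at h2
        change (f₀ Φ)⁻¹ * f₀ (N.fl x⁻¹ Φ) = (f x)⁻¹
        rw [h2, inv_mul_cancel_left]
      intro g
      rw [h0, h1]
  refine ⟨{ toFun := f, map_one' := ?_, map_mul' := ?_ }, ?_⟩
  · change (f₀ Φ)⁻¹ * f₀ (N.fl 1 Φ) = 1
    rw [N.fl_one, inv_mul_cancel]
  · intro x y
    change (f₀ Φ)⁻¹ * f₀ (N.fl (x * y) Φ) = f x * f y
    rw [key, ← mul_assoc]
  · intro i
    change (f₀ Φ)⁻¹ * f₀ (N.fl (ρ i) Φ) = s i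
    rw [N.fl_rho hρ, hf₀, inv_mul_cancel_left]

end TL
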